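import Mathlib
import Pool.Agent.Helper448.TFinal
import Pool.Agent.Helper448.TSanity

set_option autoImplicit false

namespace Pool.Agent.Results.MP_d609bd_co.CubicToroidal

open Pool.Agent.Helper448.TDefs

/-- Monotonicity in the degree, as in the problem file. -/
theorem P_mono {d d' k : ℕ} (h : d' ≤ d) (hP : P d k) : P d' k := by
  intro V _ G hT hdeg
  exact hP V G hT fun v => (hdeg v).trans (by exact_mod_cast h)

/-- Sanity check of the definition: every finite graph is `k`-planar for some `k`. -/
theorem exists_kplanar {V : Type} [Finite V] (G : SimpleGraph V) : ∃ k : ℕ, KPlanar k G :=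
  Pool.Agent.Helper448.TSanity.exists_kplanar G

/-- The explicit form: for every `k` there is a finite toroidal graph with all degrees at most 3
such that deleting any set of at most `k` edges never leaves a `k`-planar graph. -/
theorem explicit (k : ℕ) : ∃ (V : Type) (_ : Finite V) (G : SimpleGraph V), Toroidal G ∧
    (∀ v, (G.neighborSet v).encard ≤ 3) ∧
    ∀ F : Set (Sym2 V), F.encard ≤ k → ¬ KPlanar k (G.deleteEdges F) :=
  Pool.Agent.Helper448.TFinal.main k

/-- The set of degrees `d ≥ 3` asked for in Q1 is empty. -/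
theorem result : {d : ℕ | 3 ≤ d ∧ ∃ k : ℕ, P d k} = ∅ := by
  rw [Set.eq_empty_iff_forall_notMem]
  rintro d ⟨hd, k, hP⟩
  obtain ⟨V, hV, G, hT, hdeg, hno⟩ := explicit k
  obtain ⟨F, _, hF, hK⟩ := P_mono hd hP V G hT hdeg
  exact hno F hF hK

end Pool.Agent.Results.MP_d609bd_co.CubicToroidal
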